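import Pool.Agent.Helper78.BE.SumLe

/-!
# BE-3: bounds for the logarithms of the indices
-/

set_option autoImplicit false

namespace Pool.Agent.Helper27.BE

open Finset

private theorem rb_first {p : ℕ} (hp : p.Prime) {V : ℕ → Type} [∀ i, AddCommGroup (V i)]
    [∀ i, Finite (V i)] (L : GLie V) (d : ℕ → ℕ)
    (hd : ∀ i, 1 ≤ i → Nat.card (V i) = p ^ d i) (D : Finset ℕ) (i : ℕ) (hi : 1 ≤ i) :
    L.rho p D i ≤ d i * d (i + 1) := by
  classical
  obtain ⟨k, hk⟩ : ∃ k, 1 + i = k := ⟨_, rfl⟩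
  obtain ⟨F, -, hFd, hF⟩ := sl_gen hp (hd i hi) Set.univ AddSubgroup.closure_univ
  have hprod := sl_relIndex F (fun w => (L.br hk).flip w) (L.K D i) (L.K D (i + 1))
    (sl_mem_K L D hk F hF)
  rw [sl_rho_eq hp L d hd D i] at hprod
  have hk' : i + 1 = k := by omega
  rw [hk']
  have hle : ∀ w ∈ F, Nat.card ((L.K D i).map ((L.br hk).flip w)) ≤ p ^ d k := by
    intro w _
    rw [← hd k (by omega)]
    exact Nat.card_le_card_of_injective _ Subtype.val_injective
  have h1 : ∏ w ∈ F, Nat.card ((L.K D i).map ((L.br hk).flip w)) ≤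
      ∏ _w ∈ F, p ^ d k := Finset.prod_le_prod' hle
  rw [Finset.prod_const, ← pow_mul] at h1
  have h2 := (Nat.pow_le_pow_iff_right hp.one_lt).1 (hprod.trans h1)
  calc L.rho p D i ≤ d k * F.card := h2
    _ ≤ d k * d i := Nat.mul_le_mul_left _ hFd
    _ = d i * d k := mul_comm _ _

theorem GLie.rho_bounds {p : ℕ} (hp : p.Prime) {V : ℕ → Type} [∀ i, AddCommGroup (V i)]
    [∀ i, Finite (V i)] (L : GLie V) (d : ℕ → ℕ)
    (hd : ∀ i, 1 ≤ i → Nat.card (V i) = p ^ d i) (D : Finset ℕ) (C : ℕ)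
    (hD : ∀ i ∈ D, 1 ≤ i ∧ i ≤ C) (m : ℕ → ℕ) (hm : ∀ i ∈ D, IsRun D i (m i))
    (hsum : ∀ (S : Finset ℕ) (a : ℕ), (∀ i ∈ S, i ∈ D ∧ IsRun D i a) →
      ∑ i ∈ S, cd (L.rho p D i) (d i) ≤ d (a + 1)) :
    (∀ i ∈ D, L.rho p D i ≤ d i * d (i + 1)) ∧
    (∀ i ∈ D, L.rho p D i ≤ d i * cd (L.rho p D i) (d i)) ∧
    ∑ i ∈ D, (m i + 1) * cd (L.rho p D i) (d i) ≤ ∑ j ∈ Icc 1 C, d j := by
  classical
  have h1 : ∀ i ∈ D, L.rho p D i ≤ d i * d (i + 1) := fun i hi =>
    rb_first hp L d hd D i (hD i hi).1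
  refine ⟨h1, ?_, ?_⟩
  · intro i hi
    rcases Nat.eq_zero_or_pos (d i) with h0 | h0
    · have := h1 i hi
      rw [h0, zero_mul] at this
      omega
    · unfold cd
      have h2 := Nat.div_add_mod (L.rho p D i + d i - 1) (d i)
      have h3 := Nat.mod_lt (L.rho p D i + d i - 1) h0
      omega
  · have e1 : ∀ i ∈ D, (m i + 1) * cd (L.rho p D i) (d i) =
        ∑ a ∈ range C, if a ≤ m i then cd (L.rho p D i) (d i) else 0 := by
      intro i hi
      have hle : m i + 1 ≤ C := (hm i hi).1.trans (hD i hi).2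
      rw [← Finset.sum_filter]
      have : (range C).filter (fun a => a ≤ m i) = range (m i + 1) := by
        ext a
        simp only [mem_filter, mem_range]
        omega
      rw [this, Finset.sum_const, card_range, smul_eq_mul]
    rw [Finset.sum_congr rfl e1, Finset.sum_comm]
    have e2 : ∑ j ∈ Icc 1 C, d j = ∑ a ∈ range C, d (a + 1) := by
      rw [Finset.range_eq_Ico, Finset.sum_Ico_add' d 0 C 1]
      rfl
    rw [e2]
    refine Finset.sum_le_sum fun a _ => ?_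
    rw [← Finset.sum_filter]
    refine hsum _ a ?_
    intro i hi
    rw [mem_filter] at hi
    obtain ⟨h2, h3⟩ := hm i hi.1
    exact ⟨hi.1, by omega, fun j hj hji => h3 j (by omega) hji⟩

end Pool.Agent.Helper27.BE
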