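import Pool.Agent.Helper27.BE.Defs

/-!
# BE-13: straightening of products in a filtered algebra
-/

set_option autoImplicit false

namespace Pool.Agent.Helper27.BE

open Finset

namespace Straighten

variable {p : ℕ} [Fact p.Prime] {A : Type} [Ring A] [Algebra (ZMod p) A]

/-- products of short lists of given weight, and deeper elements -/
def Sh (F : ℕ → Submodule (ZMod p) A) {r : ℕ} (X : Fin r → A) (w : Fin r → ℕ) (n k : ℕ) :
    Submodule (ZMod p) A :=
  Submodule.span (ZMod p) {a | ∃ l : List (Fin r), l.length < n ∧ (l.map w).sum = k ∧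
    a = (l.map X).prod} ⊔ F (k + 1)

variable {F : ℕ → Submodule (ZMod p) A} {r : ℕ} {X : Fin r → A} {w : Fin r → ℕ}

theorem prod_mem (h0 : F 0 = ⊤) (hmul : ∀ i j, F i * F j ≤ F (i + j))
    (hX : ∀ s, X s ∈ F (w s)) (l : List (Fin r)) : (l.map X).prod ∈ F (l.map w).sum := by
  induction l with
  | nil => simp [h0]
  | cons s l ih =>
    simp only [List.map_cons, List.prod_cons, List.sum_cons]
    exact hmul _ _ (Submodule.mul_mem_mul (hX s) ih)

theorem mulX (hmul : ∀ i j, F i * F j ≤ F (i + j)) (hX : ∀ s, X s ∈ F (w s)) (s : Fin r)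
    (n k : ℕ) : Sh F X w n k ≤
      (Sh F X w (n + 1) (w s + k)).comap (LinearMap.mulLeft (ZMod p) (X s)) := by
  refine sup_le ?_ ?_
  · rw [Submodule.span_le]
    rintro _ ⟨l, hl, hk, rfl⟩
    refine Submodule.mem_sup_left (Submodule.subset_span ⟨s :: l, ?_, ?_, ?_⟩)
    · simp only [List.length_cons]; omega
    · rw [List.map_cons, List.sum_cons, hk]
    · rw [List.map_cons, List.prod_cons]
      rfl
  · intro a ha
    refine Submodule.mem_sup_right ?_
    exact hmul (w s) (k + 1) (Submodule.mul_mem_mul (hX s) ha)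

theorem mulR (h0 : F 0 = ⊤) (hmul : ∀ i j, F i * F j ≤ F (i + j))
    (hX : ∀ s, X s ∈ F (w s)) (l : List (Fin r)) (n q : ℕ) (hn : l.length + 1 < n) :
    Submodule.span (ZMod p) {a | ∃ u, w u = q ∧ a = X u} ⊔ F (q + 1) ≤
      (Sh F X w n (q + (l.map w).sum)).comap (LinearMap.mulRight (ZMod p) (l.map X).prod) := by
  refine sup_le ?_ ?_
  · rw [Submodule.span_le]
    rintro _ ⟨u, hu, rfl⟩
    refine Submodule.mem_sup_left (Submodule.subset_span ⟨u :: l, ?_, ?_, ?_⟩)
    · simpa only [List.length_cons] using hn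
    · rw [List.map_cons, List.sum_cons, hu]
    · rw [List.map_cons, List.prod_cons]
      rfl
  · intro a ha
    refine Submodule.mem_sup_right ?_
    have h1 := hmul _ _ (Submodule.mul_mem_mul ha (prod_mem h0 hmul hX l))
    have h2 : q + 1 + (l.map w).sum = q + (l.map w).sum + 1 := by omega
    rw [h2] at h1
    exact h1

theorem perm (h0 : F 0 = ⊤) (hmul : ∀ i j, F i * F j ≤ F (i + j))
    (hX : ∀ s, X s ∈ F (w s))
    (hcomm : ∀ s t, X s * X t - X t * X s ∈
      Submodule.span (ZMod p) {a | ∃ u, w u = w s + w t ∧ a = X u} ⊔ F (w s + w t + 1))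
    {l l' : List (Fin r)} (h : l.Perm l') :
    (l.map X).prod - (l'.map X).prod ∈ Sh F X w l.length (l.map w).sum := by
  induction h with
  | nil => simp
  | cons s h ih =>
    simp only [List.map_cons, List.prod_cons, List.sum_cons, List.length_cons]
    rw [← mul_sub]
    exact mulX hmul hX s _ _ ih
  | swap s t l =>
    have h1 := mulR h0 hmul hX l (l.length + 2) (w t + w s) (by omega) (hcomm t s)
    simp only [List.map_cons, List.prod_cons, List.sum_cons, List.length_cons]
    have h2 : w t + (w s + (l.map w).sum) = w t + w s + (l.map w).sum := by omega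
    rw [h2]
    have h3 : X t * (X s * (l.map X).prod) - X s * (X t * (l.map X).prod) =
        (X t * X s - X s * X t) * (l.map X).prod := by
      rw [sub_mul, mul_assoc, mul_assoc]
    rw [h3]
    exact h1
  | trans h1 _ ih1 ih2 =>
    have e1 := h1.length_eq
    have e2 := (h1.map w).sum_eq
    rw [← e1, ← e2] at ih2
    have := Submodule.add_mem _ ih1 ih2
    rwa [sub_add_sub_cancel] at this

/-- the span of the ordered monomials -/
def Mo (F : ℕ → Submodule (ZMod p) A) {r : ℕ} (X : Fin r → A) (w : Fin r → ℕ) (k : ℕ) :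
    Submodule (ZMod p) A :=
  Submodule.span (ZMod p) {a | ∃ α : Fin r → Fin p, wt w α = k ∧ a = mon X α} ⊔ F (k + 1)

theorem flat_prod (X : Fin r → A) (c : Fin r → ℕ) :
    (((List.ofFn fun s => List.replicate (c s) s).flatten).map X).prod =
      (List.ofFn fun s => X s ^ c s).prod := by
  rw [List.map_flatten, List.prod_flatten, List.map_ofFn, List.map_ofFn]
  congr 1
  congr 1
  funext s
  simp

theorem count_flat (c : Fin r → ℕ) (t : Fin r) :
    ((List.ofFn fun s => List.replicate (c s) s).flatten).count t = c t := by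
  rw [List.count_flatten, List.map_ofFn, List.sum_ofFn, Finset.sum_eq_single t]
  · simp
  · intro s _ hs
    simp [List.count_replicate, hs]
  · simp

theorem sum_count (w : Fin r → ℕ) (l : List (Fin r)) :
    (l.map w).sum = ∑ s, l.count s * w s := by
  induction l with
  | nil => simp
  | cons t l ih =>
    rw [List.map_cons, List.sum_cons, ih]
    have : ∀ s, (t :: l).count s * w s = (if t = s then w s else 0) + l.count s * w s := by
      intro s
      rw [List.count_cons]
      by_cases h : t = s
      · simp [h, add_mul, add_comm]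
      · simp [h]
    simp only [this]
    rw [Finset.sum_add_distrib]
    simp

theorem list_mem (h0 : F 0 = ⊤) (hmul : ∀ i j, F i * F j ≤ F (i + j))
    (hX : ∀ s, X s ∈ F (w s))
    (hcomm : ∀ s t, X s * X t - X t * X s ∈
      Submodule.span (ZMod p) {a | ∃ u, w u = w s + w t ∧ a = X u} ⊔ F (w s + w t + 1))
    (hpow : ∀ s, X s ^ p ∈
      Submodule.span (ZMod p) {a | ∃ u, w u = p * w s ∧ a = X u} ⊔ F (p * w s + 1)) (n : ℕ) :
    ∀ l : List (Fin r), l.length = n → (l.map X).prod ∈ Mo F X w (l.map w).sum := by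
  induction n using Nat.strong_induction_on with
  | _ n ih =>
    intro l hl
    have hsh : ∀ k, Sh F X w n k ≤ Mo F X w k := by
      intro k
      refine sup_le ?_ le_sup_right
      rw [Submodule.span_le]
      rintro _ ⟨l', hl', rfl, rfl⟩
      exact ih _ hl' l' rfl
    by_cases hc : ∀ s, l.count s < p
    · -- the list is a permutation of the ordered list
      have hperm : l.Perm ((List.ofFn fun s => List.replicate (l.count s) s).flatten) := by
        rw [List.perm_iff_count]
        intro t
        rw [count_flat]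
      have h1 := perm h0 hmul hX hcomm hperm
      rw [hl] at h1
      have h2 := hsh _ h1
      have h3 : (((List.ofFn fun s => List.replicate (l.count s) s).flatten).map X).prod ∈
          Mo F X w (l.map w).sum := by
        rw [flat_prod]
        refine Submodule.mem_sup_left (Submodule.subset_span
          ⟨fun s => ⟨l.count s, hc s⟩, ?_, rfl⟩)
        rw [sum_count]
        rfl
      have := Submodule.add_mem _ h2 h3
      rwa [sub_add_cancel] at this
    · push Not at hc
      obtain ⟨s, hs⟩ := hc
      obtain ⟨l', hl'⟩ := (List.replicate_sublist_iff.2 hs).exists_perm_append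
      have h1 := perm h0 hmul hX hcomm hl'
      rw [hl] at h1
      have h2 := hsh _ h1
      have hp2 : 2 ≤ p := (Fact.out : p.Prime).two_le
      have hlen : l'.length + 1 < n := by
        rw [← hl, hl'.length_eq, List.length_append, List.length_replicate]
        omega
      have h3 := hsh _ (mulR h0 hmul hX l' n (p * w s) hlen (hpow s))
      have e1 : p * w s + (l'.map w).sum = (l.map w).sum := by
        rw [(hl'.map w).sum_eq, List.map_append, List.sum_append, List.map_replicate,
          List.sum_replicate, smul_eq_mul]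
      have e2 : ((List.replicate p s ++ l').map X).prod = X s ^ p * (l'.map X).prod := by
        rw [List.map_append, List.prod_append, List.map_replicate, List.prod_replicate]
      rw [e1] at h3
      rw [e2] at h2
      have := Submodule.add_mem _ h2 h3
      rw [LinearMap.mulRight_apply, sub_add_cancel] at this
      exact this

theorem lists (hmul : ∀ i j, F i * F j ≤ F (i + j)) (hX : ∀ s, X s ∈ F (w s))
    (hgen : ∀ k, F (k + 1) ≤
      Submodule.span (ZMod p) {a | ∃ u, w u = 1 ∧ a = X u} * F k ⊔ F (k + 2))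
    (hone : F 0 ≤ Submodule.span (ZMod p) {1} ⊔ F 1) (k : ℕ) :
    F k ≤ Submodule.span (ZMod p) {a | ∃ l : List (Fin r), (l.map w).sum = k ∧
      a = (l.map X).prod} ⊔ F (k + 1) := by
  induction k with
  | zero =>
    refine hone.trans (sup_le_sup ?_ le_rfl)
    refine Submodule.span_mono ?_
    rintro _ rfl
    exact ⟨[], rfl, rfl⟩
  | succ k ih =>
    refine (hgen k).trans (sup_le ?_ le_sup_right)
    refine (mul_le_mul' le_rfl ih).trans ?_
    rw [Submodule.mul_sup]
    refine sup_le ?_ ?_
    · rw [Submodule.span_mul_span]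
      refine le_sup_of_le_left (Submodule.span_mono ?_)
      rintro _ ⟨_, ⟨u, hu, rfl⟩, _, ⟨l, hl, rfl⟩, rfl⟩
      refine ⟨u :: l, ?_, ?_⟩
      · rw [List.map_cons, List.sum_cons, hu, hl, add_comm]
      · rw [List.map_cons, List.prod_cons]
    · refine le_sup_of_le_right ?_
      have h1 : Submodule.span (ZMod p) {a | ∃ u, w u = 1 ∧ a = X u} ≤ F 1 := by
        rw [Submodule.span_le]
        rintro _ ⟨u, hu, rfl⟩
        have := hX u
        rw [hu] at this
        exact this
      refine (mul_le_mul' h1 le_rfl).trans ((hmul 1 (k + 1)).trans ?_)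
      have : 1 + (k + 1) = k + 1 + 1 := by omega
      rw [this]

end Straighten

open Straighten in
theorem straighten {p : ℕ} [Fact p.Prime] {A : Type} [Ring A] [Algebra (ZMod p) A]
    (F : ℕ → Submodule (ZMod p) A) (h0 : F 0 = ⊤) (_hanti : ∀ i, F (i + 1) ≤ F i)
    (hmul : ∀ i j, F i * F j ≤ F (i + j)) {r : ℕ} (X : Fin r → A) (w : Fin r → ℕ)
    (_hw : ∀ s, 1 ≤ w s) (hX : ∀ s, X s ∈ F (w s))
    (hcomm : ∀ s t, X s * X t - X t * X s ∈
      Submodule.span (ZMod p) {a | ∃ u, w u = w s + w t ∧ a = X u} ⊔ F (w s + w t + 1))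
    (hpow : ∀ s, X s ^ p ∈
      Submodule.span (ZMod p) {a | ∃ u, w u = p * w s ∧ a = X u} ⊔ F (p * w s + 1))
    (hgen : ∀ k, F (k + 1) ≤
      Submodule.span (ZMod p) {a | ∃ u, w u = 1 ∧ a = X u} * F k ⊔ F (k + 2))
    (hone : F 0 ≤ Submodule.span (ZMod p) {1} ⊔ F 1) (k : ℕ) :
    F k ≤ Submodule.span (ZMod p) {a | ∃ α : Fin r → Fin p, wt w α = k ∧ a = mon X α} ⊔
      F (k + 1) := by
  refine (lists hmul hX hgen hone k).trans (sup_le ?_ le_sup_right)
  rw [Submodule.span_le]
  rintro _ ⟨l, rfl, rfl⟩
  exact list_mem h0 hmul hX hcomm hpow _ l rfl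

end Pool.Agent.Helper27.BE
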