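import Pool.Agent.Helper27.BE.Defs

/-!
# BE-2: triangular counting
-/

set_option autoImplicit false

namespace Pool.Agent.Helper27.BE

open Finset

theorem sl_card {A : Type} [AddCommGroup A] [Finite A] {p d : ℕ} (hp : p.Prime)
    (hA : Nat.card A = p ^ d) (H : AddSubgroup A) : ∃ s ≤ d, Nat.card H = p ^ s := by
  have h := AddSubgroup.card_addSubgroup_dvd_card H
  rw [hA] at h
  exact (Nat.dvd_prime_pow hp).1 h

theorem sl_gen {A : Type} [AddCommGroup A] [Finite A] {p d : ℕ} (hp : p.Prime)
    (hA : Nat.card A = p ^ d) (T : Set A) (hT : AddSubgroup.closure T = ⊤) :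
    ∃ F : Finset A, (F : Set A) ⊆ T ∧ F.card ≤ d ∧
      AddSubgroup.closure (F : Set A) = ⊤ := by
  classical
  have hbd : ∀ F : Finset A, p ^ F.card ≤ Nat.card (AddSubgroup.closure (F : Set A)) →
      F.card ≤ d := by
    intro F hF
    have h1 : Nat.card (AddSubgroup.closure (F : Set A)) ≤ Nat.card A :=
      Nat.card_le_card_of_injective _ Subtype.val_injective
    rw [hA] at h1
    exact (Nat.pow_le_pow_iff_right hp.one_lt).1 (hF.trans h1)
  have key : ∀ n : ℕ, ∀ F : Finset A, (F : Set A) ⊆ T →
      p ^ F.card ≤ Nat.card (AddSubgroup.closure (F : Set A)) → d - F.card = n →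
      ∃ F' : Finset A, (F' : Set A) ⊆ T ∧ F'.card ≤ d ∧
        AddSubgroup.closure (F' : Set A) = ⊤ := by
    intro n
    induction n using Nat.strong_induction_on with
    | _ n ih =>
      intro F hFT hF hn
      by_cases htop : AddSubgroup.closure (F : Set A) = ⊤
      · exact ⟨F, hFT, hbd F hF, htop⟩
      · obtain ⟨w, hwT, hw⟩ : ∃ w ∈ T, w ∉ AddSubgroup.closure (F : Set A) := by
          by_contra hcon
          push Not at hcon
          apply htop
          rw [eq_top_iff, ← hT, AddSubgroup.closure_le]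
          exact hcon
        have hwF : w ∉ F := fun h => hw (AddSubgroup.subset_closure h)
        have hle : AddSubgroup.closure (F : Set A) ≤
            AddSubgroup.closure ((insert w F : Finset A) : Set A) :=
          AddSubgroup.closure_mono (by simp)
        have hwi : w ∈ AddSubgroup.closure ((insert w F : Finset A) : Set A) :=
          AddSubgroup.subset_closure (by simp)
        have hlt : (AddSubgroup.closure (F : Set A) : Set A) ⊂
            (AddSubgroup.closure ((insert w F : Finset A) : Set A) : Set A) := by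
          refine ⟨hle, fun h => hw (h hwi)⟩
        have hcard : Nat.card (AddSubgroup.closure (F : Set A)) <
            Nat.card (AddSubgroup.closure ((insert w F : Finset A) : Set A)) :=
          Set.ncard_lt_ncard hlt (Set.toFinite _)
        obtain ⟨s, -, hs⟩ := sl_card hp hA (AddSubgroup.closure (F : Set A))
        obtain ⟨t, -, ht⟩ := sl_card hp hA
          (AddSubgroup.closure ((insert w F : Finset A) : Set A))
        rw [hs, ht] at hcard
        have hst : s < t := (Nat.pow_lt_pow_iff_right hp.one_lt).1 hcard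
        rw [hs] at hF
        have hsF : F.card ≤ s := (Nat.pow_le_pow_iff_right hp.one_lt).1 hF
        have hcI : (insert w F : Finset A).card = F.card + 1 := Finset.card_insert_of_notMem hwF
        have hF' : p ^ (insert w F : Finset A).card ≤
            Nat.card (AddSubgroup.closure ((insert w F : Finset A) : Set A)) := by
          rw [ht, hcI]
          exact Nat.pow_le_pow_right hp.pos (by omega)
        have hb := hbd _ hF'
        refine ih (d - (insert w F : Finset A).card) (by omega) (insert w F) ?_ hF' rfl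
        rw [Finset.coe_insert]
        exact Set.insert_subset hwT hFT
  refine key (d - (∅ : Finset A).card) ∅ (by simp) ?_ rfl
  simp only [Finset.card_empty, pow_zero]
  exact Nat.card_pos

theorem sl_relIndex {A B : Type} [AddCommGroup A] [AddCommGroup B] [Finite A] [Finite B]
    {W : Type} (F : Finset W) (f : W → A →+ B) (K K' : AddSubgroup A)
    (hK' : ∀ x ∈ K, (∀ w ∈ F, f w x = 0) → x ∈ K') :
    K'.relIndex K ≤ ∏ w ∈ F, Nat.card (K.map (f w)) := by
  classical
  let g : K →+ ∀ w : F, (K.map (f w) : AddSubgroup B) :=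
    { toFun := fun x w => ⟨f w x, ⟨x, x.2, rfl⟩⟩
      map_zero' := by
        funext w
        apply Subtype.ext
        simp
      map_add' := fun x y => by
        funext w
        apply Subtype.ext
        simp }
  have hker : g.ker ≤ K'.addSubgroupOf K := by
    intro x hx
    rw [AddSubgroup.mem_addSubgroupOf]
    refine hK' x x.2 fun w hw => ?_
    have h1 : g x = 0 := hx
    have h2 := congrArg Subtype.val (congrFun h1 ⟨w, hw⟩)
    exact h2
  have h1 : K'.relIndex K ≤ g.ker.index := by
    unfold AddSubgroup.relIndex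
    exact Nat.le_of_dvd (Nat.pos_of_ne_zero AddSubgroup.index_ne_zero_of_finite)
      (AddSubgroup.index_dvd_of_le hker)
  refine h1.trans ?_
  rw [AddSubgroup.index_ker]
  calc Nat.card g.range ≤ Nat.card (∀ w : F, (K.map (f w) : AddSubgroup B)) :=
        Nat.card_le_card_of_injective _ Subtype.val_injective
    _ = ∏ w : F, Nat.card (K.map (f w)) := Nat.card_pi
    _ = _ := Finset.prod_coe_sort F fun w => Nat.card (K.map (f w))

private theorem sl_cd {ρ d : ℕ} (h : 1 ≤ cd ρ d) : 1 ≤ d ∧ (cd ρ d - 1) * d < ρ := by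
  unfold cd at *
  have hd : 1 ≤ d := by
    rcases Nat.eq_zero_or_pos d with h0 | h0
    · subst h0
      simp at h
    · exact h0
  refine ⟨hd, ?_⟩
  have h1 := Nat.div_mul_le_self (ρ + d - 1) d
  set q := (ρ + d - 1) / d with hq
  have h2 : (q - 1) * d + d = q * d := by
    rw [Nat.sub_mul, one_mul, Nat.sub_add_cancel]
    exact Nat.le_mul_of_pos_left d h
  omega

theorem sl_rho_eq {p : ℕ} (hp : p.Prime) {V : ℕ → Type} [∀ i, AddCommGroup (V i)]
    [∀ i, Finite (V i)] (L : GLie V) (d : ℕ → ℕ)
    (hd : ∀ i, 1 ≤ i → Nat.card (V i) = p ^ d i) (D : Finset ℕ) (i : ℕ) :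
    (L.K D (i + 1)).relIndex (L.K D i) = p ^ L.rho p D i := by
  have : Fact p.Prime := ⟨hp⟩
  have h1 : (L.K D (i + 1)).relIndex (L.K D i) ∣ p ^ d 1 := by
    rw [← hd 1 le_rfl]
    exact (AddSubgroup.relIndex_dvd_card _ _).trans
      (AddSubgroup.card_addSubgroup_dvd_card _)
  obtain ⟨s, -, hs⟩ := (Nat.dvd_prime_pow hp).1 h1
  unfold GLie.rho
  rw [hs, padicValNat.prime_pow]

theorem sl_mem_K {V : ℕ → Type} [∀ i, AddCommGroup (V i)] (L : GLie V) (D : Finset ℕ)
    {i k : ℕ} (hk : 1 + i = k) (F : Finset (V i))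
    (hF : AddSubgroup.closure (F : Set (V i)) = ⊤) :
    ∀ x ∈ L.K D i, (∀ w ∈ F, (L.br hk).flip w x = 0) → x ∈ L.K D (i + 1) := by
  intro x hx hw j hj hji
  by_cases hji' : j < i
  · exact hx j hj hji'
  · obtain rfl : j = i := by omega
    intro k' h' v
    obtain rfl : k' = k := by omega
    have hv : v ∈ AddSubgroup.closure (F : Set (V j)) := by rw [hF]; trivial
    induction hv using AddSubgroup.closure_induction with
    | mem v hv =>
      have := hw v hv
      rw [AddMonoidHom.flip_apply] at this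
      exact this
    | zero => rw [map_zero]
    | add a b _ _ iha ihb => rw [map_add, iha, ihb, add_zero]
    | neg a _ iha => rw [map_neg, iha, neg_zero]

/-- data for one level -/
private theorem sl_step {p : ℕ} (hp : p.Prime) {V : ℕ → Type} [∀ i, AddCommGroup (V i)]
    [∀ i, Finite (V i)] (L : GLie V) (hwin : L.Window) (d : ℕ → ℕ)
    (hd : ∀ i, 1 ≤ i → Nat.card (V i) = p ^ d i) (D : Finset ℕ) (a i : ℕ) (hiD : i ∈ D)
    (hrun : IsRun D i a) :
    ∃ (Φ : V 1 →+ V (a + 1)) (ψ : V (a + 1) →+ V (i + 1)),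
      p ^ cd (L.rho p D i) (d i) ≤ Nat.card ((L.K D i).map (ψ.comp Φ)) ∧
      (∀ u : V (a + 1), (∀ (l : ℕ) (h : a + 1 + (i - a) = l) (v : V (i - a)),
        L.br h u v = 0) → ψ u = 0) ∧
      (∀ (x : V 1) (m' : ℕ), 1 ≤ m' → (∀ j, m' ≤ j → j ≤ m' + a → L.KillsLevel x j) →
          ∀ (l : ℕ) (h : a + 1 + m' = l) (u : V m'), L.br h (Φ x) u = 0) := by
  classical
  have : Fact p.Prime := ⟨hp⟩
  obtain ⟨hai, hrun'⟩ := hrun
  rcases Nat.eq_zero_or_pos (cd (L.rho p D i) (d i)) with hr0 | hr
  · refine ⟨0, 0, ?_, fun _ _ => rfl, ?_⟩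
    · rw [hr0, pow_zero]
      exact Nat.card_pos
    · intro x m' _ _ l h u
      simp
  · obtain ⟨hd1, hlt⟩ := sl_cd hr
    obtain ⟨m, hm⟩ : ∃ m, i - a = m := ⟨_, rfl⟩
    obtain ⟨k, hk⟩ : ∃ k, 1 + i = k := ⟨_, rfl⟩
    have hk' : i + 1 = k := by omega
    have hm1 : 1 ≤ m := by omega
    have ham : a + m = i := by omega
    obtain ⟨n, hn⟩ : ∃ n, a + 1 = n := ⟨_, rfl⟩
    have hnm : n + m = k := by omega
    rw [hm, hk']
    rw [hn]
    obtain ⟨T, hT, hT'⟩ := hwin a m i n k hm1 ham hn hk hnm
    obtain ⟨F, hFT, hFd, hF⟩ := sl_gen hp (hd i (by omega)) T hT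
    -- the relative index
    have hrel := sl_rho_eq hp L d hd D i
    have hK' := sl_mem_K L D hk F hF
    have hprod := sl_relIndex F (fun w => (L.br hk).flip w) (L.K D i) (L.K D (i + 1)) hK'
    rw [hrel] at hprod
    -- some generator has a large image
    obtain ⟨w, hwF, hw⟩ : ∃ w ∈ F, p ^ cd (L.rho p D i) (d i) ≤
        Nat.card ((L.K D i).map ((L.br hk).flip w)) := by
      by_contra hcon
      push Not at hcon
      have hle : ∀ w ∈ F, Nat.card ((L.K D i).map ((L.br hk).flip w)) ≤
          p ^ (cd (L.rho p D i) (d i) - 1) := by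
        intro w hw
        obtain ⟨s, -, hs⟩ := sl_card hp (hd k (by omega)) ((L.K D i).map ((L.br hk).flip w))
        have h1 := hcon w hw
        rw [hs] at h1 ⊢
        have h2 := (Nat.pow_lt_pow_iff_right hp.one_lt).1 h1
        exact Nat.pow_le_pow_right hp.pos (by omega)
      have h1 : ∏ w ∈ F, Nat.card ((L.K D i).map ((L.br hk).flip w)) ≤
          ∏ _w ∈ F, p ^ (cd (L.rho p D i) (d i) - 1) := Finset.prod_le_prod' hle
      rw [Finset.prod_const, ← pow_mul] at h1
      have h2 := (Nat.pow_le_pow_iff_right hp.one_lt).1 (hprod.trans h1)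
      have h3 : (cd (L.rho p D i) (d i) - 1) * F.card ≤
          (cd (L.rho p D i) (d i) - 1) * d i := Nat.mul_le_mul_left _ hFd
      omega
    obtain ⟨Φ, v, hv1, hv2⟩ := hT' w (hFT hwF)
    refine ⟨Φ, (L.br hnm).flip v, ?_, ?_, hv2⟩
    · refine hw.trans ?_
      -- the image of `K` under `x ↦ [Φ x, v]` is the image under `x ↦ ± [x, w]`
      have hsub : (L.K D i).map ((L.br hk).flip w) ≤
          (L.K D i).map (((L.br hnm).flip v).comp Φ) := by
        rintro _ ⟨x, hx, rfl⟩
        have hx' : ∀ j, m ≤ j → j < i → L.KillsLevel x j := fun j hj hji =>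
          hx j (hrun' j (by omega) hji) hji
        have h1 := hv1 x hx'
        rcases neg_one_pow_eq_or ℤ a with h2 | h2
        · rw [h2, one_smul] at h1
          refine ⟨x, hx, ?_⟩
          rw [AddMonoidHom.comp_apply, AddMonoidHom.flip_apply, AddMonoidHom.flip_apply, h1]
        · rw [h2, neg_smul, one_smul] at h1
          refine ⟨-x, (L.K D i).neg_mem hx, ?_⟩
          rw [map_neg, AddMonoidHom.comp_apply, AddMonoidHom.flip_apply,
            AddMonoidHom.flip_apply, h1, neg_neg]
      exact AddSubgroup.card_le_of_le hsub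
    · intro u hu
      rw [AddMonoidHom.flip_apply]
      exact hu k hnm v

theorem GLie.sum_le {p : ℕ} (hp : p.Prime) {V : ℕ → Type} [∀ i, AddCommGroup (V i)]
    [∀ i, Finite (V i)] (L : GLie V) (hwin : L.Window) (d : ℕ → ℕ)
    (hd : ∀ i, 1 ≤ i → Nat.card (V i) = p ^ d i) (D S : Finset ℕ) (a : ℕ)
    (hS : ∀ i ∈ S, i ∈ D ∧ IsRun D i a) :
    ∑ i ∈ S, cd (L.rho p D i) (d i) ≤ d (a + 1) := by
  classical
  choose! Φ ψ hcard hψ hΦ using fun i (hi : i ∈ S) =>
    sl_step hp L hwin d hd D a i (hS i hi).1 (hS i hi).2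
  -- the subgroups
  have hstep : ∀ S' : Finset ℕ, S' ⊆ S → ∃ N : AddSubgroup (V (a + 1)),
      (∀ u, u ∈ N ↔ ∀ j ∈ S', ψ j u = 0) ∧
      p ^ (∑ i ∈ S', cd (L.rho p D i) (d i)) * Nat.card N ≤ Nat.card (V (a + 1)) := by
    intro S'
    induction S' using Finset.induction_on_max with
    | empty =>
      intro _
      refine ⟨⊤, by simp, ?_⟩
      simp
    | insert i S'' hlt ih =>
      intro hsub
      have hi : i ∉ S'' := fun h => lt_irrefl _ (hlt i h)
      have hiS : i ∈ S := hsub (Finset.mem_insert_self i S'')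
      have hsub' : S'' ⊆ S := fun j hj => hsub (Finset.mem_insert_of_mem hj)
      obtain ⟨N, hN, hNc⟩ := ih hsub'
      set g : N →+ V (i + 1) := (ψ i).comp N.subtype with hg
      refine ⟨g.ker.map N.subtype, ?_, ?_⟩
      · intro u
        constructor
        · rintro ⟨u', hu', rfl⟩ j hj
          rcases Finset.mem_insert.1 hj with rfl | hj
          · exact hu'
          · exact (hN _).1 u'.2 j hj
        · intro hu
          have huN : u ∈ N := (hN u).2 fun j hj => hu j (Finset.mem_insert_of_mem hj)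
          exact ⟨⟨u, huN⟩, hu i (Finset.mem_insert_self i S''), rfl⟩
      · rw [Finset.sum_insert hi, pow_add]
        have e1 : Nat.card (g.ker.map N.subtype) = Nat.card g.ker :=
          (Nat.card_congr (g.ker.equivMapOfInjective N.subtype
            (AddSubgroup.subtype_injective N)).toEquiv).symm
        rw [e1]
        have e2 : Nat.card N = Nat.card g.ker * Nat.card g.range := by
          rw [← AddSubgroup.index_ker, AddSubgroup.card_mul_index]
        have e3 : p ^ cd (L.rho p D i) (d i) ≤ Nat.card g.range := by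
          refine (hcard i hiS).trans (AddSubgroup.card_le_of_le ?_)
          rintro _ ⟨x, hx, rfl⟩
          have hmem : Φ i x ∈ N := by
            rw [hN]
            intro j hj
            have hjS := hsub' hj
            have hji := hlt j hj
            obtain ⟨hjD, hja, hjr⟩ := hS j hjS
            apply hψ j hjS
            intro l h v
            refine hΦ i hiS x (j - a) (by omega) ?_ l h v
            intro j' h1 h2
            by_cases hjj : j' = j
            · subst hjj
              exact hx j' hjD hji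
            · exact hx j' (hjr j' (by omega) (by omega)) (by omega)
          exact ⟨⟨Φ i x, hmem⟩, rfl⟩
        calc p ^ cd (L.rho p D i) (d i) * p ^ (∑ i ∈ S'', cd (L.rho p D i) (d i)) *
              Nat.card g.ker
            = p ^ (∑ i ∈ S'', cd (L.rho p D i) (d i)) *
              (Nat.card g.ker * p ^ cd (L.rho p D i) (d i)) := by ring
          _ ≤ p ^ (∑ i ∈ S'', cd (L.rho p D i) (d i)) *
              (Nat.card g.ker * Nat.card g.range) :=
              Nat.mul_le_mul_left _ (Nat.mul_le_mul_left _ e3)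
          _ = p ^ (∑ i ∈ S'', cd (L.rho p D i) (d i)) * Nat.card N := by rw [e2]
          _ ≤ _ := hNc
  obtain ⟨N, -, hN⟩ := hstep S (Finset.Subset.refl S)
  rw [hd (a + 1) (by omega)] at hN
  have h1 : 1 ≤ Nat.card N := Nat.card_pos
  have h2 : p ^ (∑ i ∈ S, cd (L.rho p D i) (d i)) ≤ p ^ d (a + 1) :=
    (Nat.le_mul_of_pos_right _ h1).trans hN
  exact (Nat.pow_le_pow_iff_right hp.one_lt).1 h2

end Pool.Agent.Helper27.BE
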