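import Pool.Agent.Helper27.BE.Defs

/-!
# BE-1: the window property of a graded Lie ring generated in degree one
-/

set_option autoImplicit false

namespace Pool.Agent.Helper27.BE

open Finset

private theorem window_gen {V : ℕ → Type} [∀ i, AddCommGroup (V i)] (L : GLie V) {m m1 : ℕ}
    (h : 1 + m = m1) (hm : 1 ≤ m) (S : Set (V m)) (hS : AddSubgroup.closure S = ⊤) :
    AddSubgroup.closure {w : V m1 | ∃ (y : V 1), ∃ v ∈ S, L.br h y v = w} = ⊤ := by
  rw [eq_top_iff, ← L.gen h hm, AddSubgroup.closure_le]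
  rintro _ ⟨x, y, rfl⟩
  have hy : y ∈ AddSubgroup.closure S := by rw [hS]; trivial
  induction hy using AddSubgroup.closure_induction with
  | mem v hv => exact AddSubgroup.subset_closure ⟨x, v, hv, rfl⟩
  | zero => rw [map_zero]; exact AddSubgroup.zero_mem _
  | add a b _ _ iha ihb => rw [map_add]; exact AddSubgroup.add_mem _ iha ihb
  | neg a _ iha => rw [map_neg]; exact AddSubgroup.neg_mem _ iha

private theorem window_aux {V : ℕ → Type} [∀ i, AddCommGroup (V i)] (L : GLie V) (a : ℕ) :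
    ∀ (m i n k : ℕ) (_ : 1 ≤ m) (_ : a + m = i) (_ : a + 1 = n) (hk : 1 + i = k)
      (h' : n + m = k) (S : Set (V m)) (_ : AddSubgroup.closure S = ⊤),
      ∃ T : Set (V i), AddSubgroup.closure T = ⊤ ∧
        ∀ w ∈ T, ∃ (Φ : V 1 →+ V n), ∃ v ∈ S,
          (∀ x : V 1, (∀ j, m ≤ j → j < i → L.KillsLevel x j) →
            L.br h' (Φ x) v = ((-1 : ℤ) ^ a) • L.br hk x w) ∧
          (∀ (x : V 1) (m' : ℕ), 1 ≤ m' → (∀ j, m' ≤ j → j ≤ m' + a → L.KillsLevel x j) →
            ∀ (l : ℕ) (h : n + m' = l) (u : V m'), L.br h (Φ x) u = 0) := by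
  induction a with
  | zero =>
    intro m i n k hm him hn hk h' S hS
    obtain rfl : i = m := by omega
    obtain rfl : n = 1 := by omega
    refine ⟨S, hS, fun w hw => ⟨AddMonoidHom.id _, w, hw, ?_, ?_⟩⟩
    · intro x _
      simp
    · intro x m' _ hx l h u
      exact hx m' le_rfl (by omega) l h u
  | succ a ih =>
    intro m i n k hm him hn hk h' S hS
    obtain ⟨m1, hm1⟩ : ∃ m1, 1 + m = m1 := ⟨_, rfl⟩
    obtain ⟨n1, hn1⟩ : ∃ n1, a + 1 = n1 := ⟨_, rfl⟩
    have q1 : 1 ≤ m1 := by omega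
    have q2 : a + m1 = i := by omega
    have q3 : n1 + m1 = k := by omega
    have hS' := window_gen L hm1 hm S hS
    obtain ⟨T, hT, hT'⟩ := ih m1 i n1 k q1 q2 hn1 hk q3 _ hS'
    refine ⟨T, hT, fun w hw => ?_⟩
    obtain ⟨Φ, v', ⟨y, v, hv, hv'⟩, h1, h2⟩ := hT' w hw
    have hn' : 1 + n1 = n := by omega
    refine ⟨(L.br hn' y).comp Φ, v, hv, ?_, ?_⟩
    · intro x hx
      obtain ⟨s, hs⟩ : ∃ s, n1 + m = s := ⟨_, rfl⟩
      have hs' : 1 + s = k := by omega
      have e1 := h1 x fun j hj hji => hx j (by omega) hji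
      have e2 := h2 x m hm (fun j hj hji => hx j hj (by omega)) s hs v
      have e3 := L.jac hn' hs hm1 hs' h' q3 y (Φ x) v
      rw [e2, map_zero, hv', e1] at e3
      rw [AddMonoidHom.comp_apply, pow_succ, mul_neg_one, neg_smul]
      exact eq_neg_of_add_eq_zero_left e3.symm
    · intro x m' hm' hx l h u
      obtain ⟨s, hs⟩ : ∃ s, n1 + m' = s := ⟨_, rfl⟩
      obtain ⟨t, ht⟩ : ∃ t, 1 + m' = t := ⟨_, rfl⟩
      have hs' : 1 + s = l := by omega
      have ht' : n1 + t = l := by omega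
      have e2 := h2 x m' hm' (fun j hj hji => hx j hj (by omega)) s hs u
      have e4 := h2 x t (by omega) (fun j hj hji => hx j (by omega) (by omega)) l ht'
        (L.br ht y u)
      have e3 := L.jac hn' hs ht hs' h ht' y (Φ x) u
      rw [e2, map_zero, e4, add_zero] at e3
      exact e3.symm

theorem GLie.window {V : ℕ → Type} [∀ i, AddCommGroup (V i)] (L : GLie V) : L.Window := by
  intro a m i n k hm him hn hk h'
  obtain ⟨T, hT, hT'⟩ := window_aux L a m i n k hm him hn hk h' Set.univ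
    (AddSubgroup.closure_univ)
  refine ⟨T, hT, fun w hw => ?_⟩
  obtain ⟨Φ, v, -, h1, h2⟩ := hT' w hw
  exact ⟨Φ, v, h1, h2⟩

end Pool.Agent.Helper27.BE
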